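import Mathlib

/-!
# The survival number of hyperbolic vertex-transitive graphs of non-linear growth is infinite
-/

set_option autoImplicit false

namespace Pool.Agent.Results.MP_5fb5c8_co.HyperbolicSurvival

open SimpleGraph

variable {V : Type*}

/-- The graph `G` is vertex-transitive. -/
def VertexTransitive (G : SimpleGraph V) : Prop := ∀ u v : V, ∃ φ : G ≃g G, φ u = v

/-- The ball `B(v, r)`. -/
def ball (G : SimpleGraph V) (v : V) (r : ℕ) : Set V := {u | G.dist u v ≤ r}

/-- The graph has linear growth: the sizes of balls are bounded by a linear function of the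
radius. -/
def LinearGrowth (G : SimpleGraph V) : Prop :=
  ∃ a b : ℕ, ∀ (v : V) (r : ℕ), (ball G v r).ncard ≤ a * r + b

/-- Gromov hyperbolicity: for some `δ`, in every geodesic triangle every side is contained in the
`δ`-neighbourhood of the two other sides. -/
def Hyperbolic (G : SimpleGraph V) : Prop :=
  ∃ δ : ℕ, ∀ (a b c : V) (p : G.Walk a b) (q : G.Walk b c) (r : G.Walk a c),
    p.length = G.dist a b → q.length = G.dist b c → r.length = G.dist a c →
      ∀ x ∈ p.support, ∃ y, (y ∈ q.support ∨ y ∈ r.support) ∧ G.dist x y ≤ δ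

/-- The Voronoi cell `C(v, T)` of the site `v`. -/
def cell (G : SimpleGraph V) (v : V) (T : Finset V) : Set V :=
  {u | ∀ v' ∈ T, G.dist u v ≤ G.dist u v'}

/-- The number `I(T)` of sites of `T` with an infinite cell. -/
noncomputable def infiniteCells (G : SimpleGraph V) (T : Finset V) : ℕ :=
  {v | v ∈ T ∧ (cell G v T).Infinite}.ncard

/-- The family `𝒯(D, n)` of finite sets of at least `n` sites at pairwise distance more
than `D`. -/
def Sites (G : SimpleGraph V) (D n : ℕ) : Set (Finset V) :=
  {T | n ≤ T.card ∧ ∀ v₁ ∈ T, ∀ v₂ ∈ T, v₁ ≠ v₂ → D < G.dist v₁ v₂}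

/-- The survival number of `G`. -/
noncomputable def survivalNumber (G : SimpleGraph V) : ℕ∞ :=
  sSup {s : ℕ∞ | ∃ n : ℕ, s = n ∧ 1 ≤ n ∧ ∃ D : ℕ, ∀ T ∈ Sites G D n, n ≤ infiniteCells G T}

/-! ### Distances and Gromov products -/

/-- The distance as an integer. -/
noncomputable def d (G : SimpleGraph V) (a b : V) : ℤ := G.dist a b

/-- Twice the Gromov product of `x` and `y` at `o`. -/
noncomputable def gp (G : SimpleGraph V) (o x y : V) : ℤ := d G o x + d G o y - d G x y

section basics

variable {G : SimpleGraph V}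

lemma d_nonneg (a b : V) : 0 ≤ d G a b := Int.natCast_nonneg _

lemma d_comm (a b : V) : d G a b = d G b a := by unfold d; rw [SimpleGraph.dist_comm]

lemma d_self (a : V) : d G a a = 0 := by unfold d; simp

lemma d_tri (hG : G.Connected) (a b c : V) : d G a c ≤ d G a b + d G b c := by
  unfold d
  exact_mod_cast hG.dist_triangle

lemma gp_comm (o x y : V) : gp G o x y = gp G o y x := by
  unfold gp; rw [d_comm x y]; ring

/-- Points on geodesics. -/
lemma exists_between (hG : G.Connected) (a b : V) (s : ℤ) (h0 : 0 ≤ s) (h1 : s ≤ d G a b) :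
    ∃ q, d G a q = s ∧ d G q b = d G a b - s := by
  obtain ⟨p, hp⟩ := hG.exists_walk_length_eq_dist a b
  obtain ⟨n, rfl⟩ := Int.eq_ofNat_of_zero_le h0
  have h1' : n ≤ G.dist a b := by unfold d at h1; exact_mod_cast h1
  refine ⟨p.getVert n, ?_⟩
  have e1 : G.dist a (p.getVert n) ≤ n := by
    have := SimpleGraph.dist_le (p.take n)
    rw [Walk.take_length] at this
    omega
  have e2 : G.dist (p.getVert n) b ≤ G.dist a b - n := by
    have := SimpleGraph.dist_le (p.drop n)
    rw [Walk.drop_length] at this
    omega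
  have e3 := hG.dist_triangle (u := a) (v := p.getVert n) (w := b)
  unfold d
  omega

lemma on_geodesic (hG : G.Connected) {a b w : V} (p : G.Walk a b) (hp : p.length = G.dist a b)
    (hw : w ∈ p.support) : d G a w + d G w b = d G a b := by
  classical
  have h1 := SimpleGraph.dist_le (p.takeUntil w hw)
  have h2 := SimpleGraph.dist_le (p.dropUntil w hw)
  have h3 : (p.takeUntil w hw).length + (p.dropUntil w hw).length = p.length := by
    rw [← Walk.length_append, Walk.take_spec]
  have e3 := hG.dist_triangle (u := a) (v := w) (w := b)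
  unfold d
  omega

/-- Every point of a geodesic is at least as far as the Gromov product. -/
lemma gp_le (hG : G.Connected) {o a b w : V} (h : d G a w + d G w b = d G a b) :
    gp G o a b ≤ 2 * d G o w := by
  unfold gp
  have h1 := d_tri hG o w a
  have h2 := d_tri hG o w b
  rw [d_comm w a] at h1
  linarith

/-- Some point of a geodesic is not much farther than the Gromov product. -/
lemma exists_close (hG : G.Connected) {δ : ℕ}
    (hδ : ∀ (a b c : V) (p : G.Walk a b) (q : G.Walk b c) (r : G.Walk a c),
      p.length = G.dist a b → q.length = G.dist b c → r.length = G.dist a c →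
      ∀ x ∈ p.support, ∃ y, (y ∈ q.support ∨ y ∈ r.support) ∧ G.dist x y ≤ δ)
    (o a b : V) (p : G.Walk a b) (hp : p.length = G.dist a b) :
    ∃ z ∈ p.support, 2 * d G o z ≤ gp G o a b + 4 * δ + 2 := by
  classical
  obtain ⟨q, hq⟩ := hG.exists_walk_length_eq_dist b o
  obtain ⟨r, hr⟩ := hG.exists_walk_length_eq_dist a o
  have hthin := hδ a b o p q r hp hq hr
  -- `A`: close to the side `a o`; `B`: close to the side `b o`
  set A : V → Prop := fun z => ∃ y ∈ r.support, G.dist z y ≤ δ with hA
  set B : V → Prop := fun z => ∃ y ∈ q.support, G.dist z y ≤ δ with hB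
  have hAB : ∀ z ∈ p.support, A z ∨ B z := by
    intro z hz
    obtain ⟨y, hy | hy, hd⟩ := hthin z hz
    · exact Or.inr ⟨y, hy, hd⟩
    · exact Or.inl ⟨y, hy, hd⟩
  have hAa : A a := ⟨a, r.start_mem_support, by simp⟩
  have hBb : B b := ⟨b, q.start_mem_support, by simp⟩
  obtain ⟨z, z', hz, hz', hzz⟩ : ∃ z z', (z ∈ p.support ∧ A z) ∧ B z' ∧ G.dist z z' ≤ 1 := by
    by_contra hcon
    push Not at hcon
    have hall : ∀ i, i ≤ p.length → A (p.getVert i) := by
      intro i
      induction i with
      | zero => intro _; rw [Walk.getVert_zero]; exact hAa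
      | succ i ih =>
        intro hi
        have hAi := ih (by omega)
        by_contra hnot
        have hBi : B (p.getVert (i + 1)) :=
          (hAB _ (Walk.getVert_mem_support p (i + 1))).resolve_left hnot
        have hadj : G.Adj (p.getVert i) (p.getVert (i + 1)) := p.adj_getVert_succ (by omega)
        have := hcon _ _ ⟨Walk.getVert_mem_support p i, hAi⟩ hBi
        rw [(SimpleGraph.dist_eq_one_iff_adj).2 hadj] at this
        omega
    have hb := hall p.length (le_refl _)
    rw [Walk.getVert_length] at hb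
    have := hcon _ _ ⟨p.end_mem_support, hb⟩ hBb
    rw [SimpleGraph.dist_self] at this
    omega
  refine ⟨z, hz.1, ?_⟩
  obtain ⟨u, hu, hzu⟩ := hz.2
  obtain ⟨u', hu', hzu'⟩ := hz'
  have e1 := on_geodesic hG r hr hu
  have e2 := on_geodesic hG q hq hu'
  have e3 := on_geodesic hG p hp hz.1
  have i1 := d_tri hG o u z
  have i2 := d_tri hG a u z
  have i3 := d_tri hG o u' z
  have i4 := d_tri hG b u' z
  have k1 : d G u z ≤ δ := by rw [d_comm]; unfold d; exact_mod_cast hzu
  have k2 : d G u' z ≤ δ + 1 := by
    have h5 := d_tri hG u' z' z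
    have h6 : d G u' z' ≤ δ := by rw [d_comm]; unfold d; exact_mod_cast hzu'
    have h7 : d G z' z ≤ 1 := by rw [d_comm]; unfold d; exact_mod_cast hzz
    linarith
  unfold gp
  rw [d_comm u o] at e1
  rw [d_comm u' o] at e2
  rw [d_comm a o] at e1
  rw [d_comm b o] at e2
  rw [d_comm z b] at e3
  linarith

/-- The four-point inequality. -/
lemma four_point (hG : G.Connected) {δ : ℕ}
    (hδ : ∀ (a b c : V) (p : G.Walk a b) (q : G.Walk b c) (r : G.Walk a c),
      p.length = G.dist a b → q.length = G.dist b c → r.length = G.dist a c →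
      ∀ x ∈ p.support, ∃ y, (y ∈ q.support ∨ y ∈ r.support) ∧ G.dist x y ≤ δ)
    (o x y z : V) : min (gp G o x y) (gp G o y z) ≤ gp G o x z + (6 * δ + 2) := by
  obtain ⟨p, hp⟩ := hG.exists_walk_length_eq_dist x z
  obtain ⟨q, hq⟩ := hG.exists_walk_length_eq_dist z y
  obtain ⟨r, hr⟩ := hG.exists_walk_length_eq_dist x y
  obtain ⟨w, hw, hwo⟩ := exists_close hG hδ o x z p hp
  obtain ⟨w', hw', hww⟩ := hδ x z y p q r hp hq hr w hw
  have k1 : d G w w' ≤ δ := by unfold d; exact_mod_cast hww
  have k2 := d_tri hG o w w'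
  rcases hw' with h | h
  · have e := on_geodesic hG q hq h
    have := gp_le hG (o := o) e
    rw [gp_comm] at this
    have h2 := min_le_right (gp G o x y) (gp G o y z)
    linarith
  · have e := on_geodesic hG r hr h
    have := gp_le hG (o := o) e
    have h2 := min_le_left (gp G o x y) (gp G o y z)
    linarith

end basics

/-! ### Balls, automorphisms, geodesics -/

section trans

variable {G : SimpleGraph V}

lemma dist_iso_le (hG : G.Connected) (φ : G ≃g G) (a b : V) :
    G.dist (φ a) (φ b) ≤ G.dist a b := by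
  obtain ⟨p, hp⟩ := hG.exists_walk_length_eq_dist a b
  have := SimpleGraph.dist_le (p.map φ.toHom)
  rw [Walk.length_map, hp] at this
  exact this

lemma dist_iso (hG : G.Connected) (φ : G ≃g G) (a b : V) :
    G.dist (φ a) (φ b) = G.dist a b := by
  apply le_antisymm (dist_iso_le hG φ a b)
  have := dist_iso_le hG φ.symm (φ a) (φ b)
  simpa using this

lemma d_iso (hG : G.Connected) (φ : G ≃g G) (a b : V) : d G (φ a) (φ b) = d G a b := by
  unfold d; rw [dist_iso hG]

lemma ball_finite (hG : G.Connected) (hlf : ∀ v, (G.neighborSet v).Finite) (v : V) (r : ℕ) :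
    (ball G v r).Finite := by
  induction r with
  | zero =>
    have : ball G v 0 ⊆ {v} := by
      intro u hu
      have h0 : G.dist u v = 0 := by
        have : G.dist u v ≤ 0 := hu
        omega
      exact (hG.dist_eq_zero_iff).1 h0
    exact (Set.finite_singleton v).subset this
  | succ r ih =>
    have hsub : ball G v (r + 1) ⊆ ball G v r ∪ ⋃ u ∈ ball G v r, G.neighborSet u := by
      intro w hw
      have hw' : G.dist w v ≤ r + 1 := hw
      by_cases h : G.dist w v ≤ r
      · exact Or.inl h
      · right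
        obtain ⟨q, hq1, hq2⟩ := exists_between hG v w r (by omega) (by
          rw [d_comm]; unfold d; omega)
        have h1 : G.dist q w = 1 := by
          rw [d_comm v w] at hq2
          unfold d at hq2
          omega
        simp only [Set.mem_iUnion]
        refine ⟨q, ?_, ?_⟩
        · show G.dist q v ≤ r
          rw [d_comm] at hq1
          unfold d at hq1
          omega
        · exact (SimpleGraph.dist_eq_one_iff_adj).1 h1
    exact (ih.union (ih.biUnion fun u _ => hlf u)).subset hsub

lemma exists_far [Infinite V] (hG : G.Connected) (hlf : ∀ v, (G.neighborSet v).Finite) (v : V)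
    (r : ℤ) : ∃ w, r ≤ d G v w := by
  by_contra hcon
  push Not at hcon
  have : (Set.univ : Set V) ⊆ ball G v r.toNat := by
    intro w _
    show G.dist w v ≤ r.toNat
    have := hcon w
    rw [d_comm] at this
    unfold d at this
    omega
  exact Set.infinite_univ ((ball_finite hG hlf v _).subset this)

/-- A geodesic of length `2 M` with given midpoint. -/
lemma exists_line [Infinite V] (hG : G.Connected) (hlf : ∀ v, (G.neighborSet v).Finite)
    (htr : VertexTransitive G) (v : V) (M : ℕ) :
    ∃ γ : ℕ → V, γ M = v ∧ ∀ i j, i ≤ j → j ≤ 2 * M → d G (γ i) (γ j) = j - i := by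
  obtain ⟨w, hw⟩ := exists_far hG hlf v (2 * M)
  obtain ⟨p, hp⟩ := hG.exists_walk_length_eq_dist v w
  have hlen : 2 * M ≤ p.length := by
    rw [hp]; unfold d at hw; omega
  obtain ⟨φ, hφ⟩ := htr (p.getVert M) v
  refine ⟨fun i => φ (p.getVert i), hφ, ?_⟩
  intro i j hij hj
  rw [d_iso hG]
  have e1 : ∀ i, i ≤ p.length → d G v (p.getVert i) = i := by
    intro i hi
    have h1 := SimpleGraph.dist_le (p.take i)
    have h2 := SimpleGraph.dist_le (p.drop i)
    rw [Walk.take_length] at h1
    rw [Walk.drop_length] at h2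
    have e3 := hG.dist_triangle (u := v) (v := p.getVert i) (w := w)
    unfold d
    omega
  have e2 : ∀ k, i + k ≤ p.length → G.dist (p.getVert i) (p.getVert (i + k)) ≤ k := by
    intro k
    induction k with
    | zero => intro _; simp
    | succ k ih =>
      intro hk
      have h1 := ih (by omega)
      have hadj : G.Adj (p.getVert (i + k)) (p.getVert (i + k + 1)) :=
        p.adj_getVert_succ (by omega)
      have h2 := (SimpleGraph.dist_eq_one_iff_adj).2 hadj
      have e3 := hG.dist_triangle (u := p.getVert i) (v := p.getVert (i + k))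
        (w := p.getVert (i + k + 1))
      have e4 : i + (k + 1) = i + k + 1 := by ring
      rw [e4]
      omega
  have h3 := e2 (j - i) (by omega)
  have e4 : i + (j - i) = j := by omega
  rw [e4] at h3
  have h5 := e1 i (by omega)
  have h6 := e1 j (by omega)
  have h7 := d_tri hG v (p.getVert i) (p.getVert j)
  unfold d at *
  omega

/-- `n` far points with pairwise bounded Gromov products. -/
def Q (G : SimpleGraph V) (n : ℕ) : Prop :=
  ∃ c : ℤ, ∀ (r : ℤ) (o : V), ∃ l : List V, l.length = n ∧ (∀ x ∈ l, r ≤ d G o x) ∧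
    l.Pairwise fun x y => gp G o x y ≤ c

variable [Infinite V] (hG : G.Connected) (hlf : ∀ v, (G.neighborSet v).Finite)
  (htr : VertexTransitive G) (Δ : ℤ) (hΔ0 : 0 ≤ Δ)
  (h4 : ∀ o x y z : V, min (gp G o x y) (gp G o y z) ≤ gp G o x z + Δ)

include hG h4 hΔ0

omit [Infinite V] in
/-- Projection to a geodesic. -/
lemma proj (p u a : V) (hp : ∀ s : ℤ, 0 ≤ s → s ≤ d G p a →
    ∃ q, d G p q = s ∧ d G q a = d G p a - s ∧ d G u p ≤ d G u q) :
    gp G p u a ≤ 2 * Δ + 1 := by
  by_contra hcon
  push Not at hcon
  set t := gp G p u a with ht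
  have hta : t ≤ 2 * d G p a := by
    have := d_tri hG p a u
    rw [d_comm a u] at this
    rw [ht]; unfold gp
    linarith
  obtain ⟨q, hq1, hq2, h1⟩ := hp (t / 2) (by omega) (by omega)
  have h2 := h4 p u a q
  have h3 : gp G p a q = 2 * (t / 2) := by
    unfold gp
    rw [d_comm a q, hq2, hq1]
    ring
  have h5 : gp G p u q = d G p u + t / 2 - d G u q := by unfold gp; rw [hq1]
  rw [← ht, h3, h5, min_eq_right (by omega)] at h2
  rw [d_comm p u] at h2
  omega

include hlf htr

/-- Not linear growth gives three far points. -/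
lemma q3 (hgr : ¬ LinearGrowth G) : Q G 3 := by
  classical
  refine ⟨2 * Δ + 1, ?_⟩
  by_contra hcon
  push Not at hcon
  obtain ⟨r, o, hro⟩ := hcon
  apply hgr
  set R : ℕ := r.toNat with hR
  refine ⟨4 * (ball G o R).ncard, (ball G o R).ncard, ?_⟩
  intro v m
  set M : ℕ := 2 * m + R with hM
  obtain ⟨γ, hγM, hγ⟩ := exists_line hG hlf htr v M
  -- cardinality of balls
  have hball : ∀ w, (ball G w R).ncard = (ball G o R).ncard := by
    intro w
    obtain ⟨φ, hφ⟩ := htr w o
    have : ball G o R = φ '' ball G w R := by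
      ext u
      constructor
      · intro hu
        refine ⟨φ.symm u, ?_, by simp⟩
        have hu' : G.dist u o ≤ R := hu
        show G.dist (φ.symm u) w ≤ R
        rw [← dist_iso hG φ, hφ]
        simpa using hu'
      · rintro ⟨u', hu', rfl⟩
        have hu'' : G.dist u' w ≤ R := hu'
        show G.dist (φ u') o ≤ R
        rw [← hφ, dist_iso hG]
        exact hu''
    rw [this, Set.ncard_image_of_injective _ φ.injective]
  have hcover : ball G v m ⊆ ⋃ i ∈ Finset.Icc (M - 2 * m) (M + 2 * m), ball G (γ i) R := by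
    intro u hu
    have hu' : G.dist u v ≤ m := hu
    -- nearest point on the geodesic
    obtain ⟨i0, hi0, hmin⟩ := Finset.exists_min_image (Finset.range (2 * M + 1))
      (fun i => d G u (γ i)) ⟨0, by simp⟩
    rw [Finset.mem_range] at hi0
    have hmin' : ∀ i, i ≤ 2 * M → d G u (γ i0) ≤ d G u (γ i) := fun i hi =>
      hmin i (by rw [Finset.mem_range]; omega)
    have hu2 : d G u (γ i0) ≤ m := by
      have := hmin' M (by omega)
      rw [hγM] at this
      unfold d at this ⊢
      omega
    have hnear : d G v (γ i0) ≤ 2 * m := by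
      have := d_tri hG v u (γ i0)
      have h2 : d G v u ≤ m := by rw [d_comm]; unfold d; omega
      linarith
    have hi0' : M ≤ i0 + 2 * m ∧ i0 ≤ M + 2 * m := by
      rcases le_total i0 M with h | h
      · have := hγ i0 M h (by omega)
        rw [hγM, d_comm] at this
        omega
      · have := hγ M i0 h (by omega)
        rw [hγM] at this
        omega
    simp only [Set.mem_iUnion]
    refine ⟨i0, by rw [Finset.mem_Icc]; omega, ?_⟩
    by_contra hfar
    have hfar' : (R : ℤ) ≤ d G u (γ i0) := by
      have : ¬ G.dist u (γ i0) ≤ R := hfar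
      unfold d
      omega
    -- the three points `u`, `γ 0`, `γ (2 M)` seen from `γ i0`
    obtain ⟨φ, hφ⟩ := htr (γ i0) o
    have hab : gp G (γ i0) (γ 0) (γ (2 * M)) = 0 := by
      unfold gp
      rw [hγ i0 (2 * M) (by omega) (le_refl _), d_comm, hγ 0 i0 (by omega) (by omega),
        hγ 0 (2 * M) (by omega) (le_refl _)]
      push_cast
      ring
    have hga : gp G (γ i0) u (γ 0) ≤ 2 * Δ + 1 := by
      apply proj hG Δ hΔ0 h4
      intro s hs0 hs1
      rw [d_comm (γ i0) (γ 0), hγ 0 i0 (by omega) (by omega)] at hs1 ⊢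
      obtain ⟨n, rfl⟩ := Int.eq_ofNat_of_zero_le hs0
      refine ⟨γ (i0 - n), ?_, ?_, hmin' _ (by omega)⟩
      · rw [d_comm, hγ (i0 - n) i0 (by omega) (by omega)]
        omega
      · rw [d_comm, hγ 0 (i0 - n) (by omega) (by omega)]
        omega
    have hgb : gp G (γ i0) u (γ (2 * M)) ≤ 2 * Δ + 1 := by
      apply proj hG Δ hΔ0 h4
      intro s hs0 hs1
      rw [hγ i0 (2 * M) (by omega) (by omega)] at hs1 ⊢
      obtain ⟨n, rfl⟩ := Int.eq_ofNat_of_zero_le hs0
      refine ⟨γ (i0 + n), ?_, ?_, hmin' _ (by omega)⟩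
      · rw [hγ i0 (i0 + n) (by omega) (by omega)]
        omega
      · rw [hγ (i0 + n) (2 * M) (by omega) (by omega)]
        omega
    have hφd : ∀ x, d G o (φ x) = d G (γ i0) x := by
      intro x
      rw [← hφ, d_iso hG]
    have hφg : ∀ x y, gp G o (φ x) (φ y) = gp G (γ i0) x y := by
      intro x y
      unfold gp
      rw [hφd, hφd, d_iso hG]
    have hrR : r ≤ R := by omega
    have hda : d G (γ i0) (γ 0) = i0 := by
      rw [d_comm, hγ 0 i0 (by omega) (by omega)]
      omega
    have hdb : d G (γ i0) (γ (2 * M)) = 2 * M - i0 := by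
      rw [hγ i0 (2 * M) (by omega) (by omega)]
      push_cast
      ring
    refine hro [φ u, φ (γ 0), φ (γ (2 * M))] rfl ?_ ?_
    · intro x hx
      simp only [List.mem_cons, List.not_mem_nil, or_false] at hx
      rcases hx with rfl | rfl | rfl
      · rw [hφd, d_comm]; linarith
      · rw [hφd, hda]; omega
      · rw [hφd, hdb]; omega
    · simp only [List.pairwise_cons, List.mem_cons, List.not_mem_nil, or_false, forall_eq_or_imp,
        forall_eq, hφg, List.Pairwise.nil, IsEmpty.forall_iff, implies_true, and_true]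
      refine ⟨⟨hga, hgb⟩, ?_⟩
      rw [hab]
      omega
  have hfin : (⋃ i ∈ Finset.Icc (M - 2 * m) (M + 2 * m), ball G (γ i) R).Finite :=
    (Finset.finite_toSet _).biUnion fun i _ => ball_finite hG hlf _ _
  calc (ball G v m).ncard ≤ (⋃ i ∈ Finset.Icc (M - 2 * m) (M + 2 * m), ball G (γ i) R).ncard :=
        Set.ncard_le_ncard hcover hfin
    _ ≤ ∑ i ∈ Finset.Icc (M - 2 * m) (M + 2 * m), (ball G (γ i) R).ncard :=
        Finset.set_ncard_biUnion_le _ _
    _ = ∑ i ∈ Finset.Icc (M - 2 * m) (M + 2 * m), (ball G o R).ncard := by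
        simp only [hball]
    _ = 4 * (ball G o R).ncard * m + (ball G o R).ncard := by
        rw [Finset.sum_const, smul_eq_mul, Nat.card_Icc]
        have : M + 2 * m + 1 - (M - 2 * m) = 4 * m + 1 := by omega
        rw [this]
        ring

/-- Branching: three far points give arbitrarily many. -/
lemma q_all (h3 : Q G 3) (n : ℕ) : Q G (n + 1) := by
  induction n with
  | zero =>
    refine ⟨0, fun r o => ?_⟩
    obtain ⟨w, hw⟩ := exists_far hG hlf o r
    exact ⟨[w], rfl, by simpa using hw, by simp⟩
  | succ n ih =>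
    obtain ⟨c3, h3⟩ := h3
    obtain ⟨c, hc⟩ := ih
    set L : ℤ := |c3| + |c| + 3 * Δ + 1 with hL
    have a1 := abs_nonneg c3
    have a2 := abs_nonneg c
    have a3 := le_abs_self c3
    have a4 := le_abs_self c
    refine ⟨max (c + Δ) (c3 + 2 * L), fun r o => ?_⟩
    obtain ⟨l, hl1, hl2, hl3⟩ := hc (max r L) o
    obtain ⟨x1, l', rfl⟩ : ∃ x1 l', l = x1 :: l' := by
      cases l with
      | nil => simp at hl1
      | cons a l => exact ⟨a, l, rfl⟩
    have hx1 : max r L ≤ d G o x1 := hl2 x1 (by simp)
    have hx1L : L ≤ d G o x1 := le_trans (le_max_right _ _) hx1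
    obtain ⟨p, hp1, hp2⟩ := exists_between hG o x1 L (by omega) hx1L
    obtain ⟨m, hm1, hm2, hm3⟩ := h3 (|r| + |c3| + Δ) p
    obtain ⟨y1, y2, y3, rfl⟩ : ∃ y1 y2 y3, m = [y1, y2, y3] := by
      match m, hm1 with
      | [a, b, c], _ => exact ⟨a, b, c, rfl⟩
    simp only [List.pairwise_cons, List.mem_cons, List.not_mem_nil, or_false, forall_eq_or_imp,
      forall_eq, List.Pairwise.nil, IsEmpty.forall_iff, implies_true, and_true] at hm2 hm3
    obtain ⟨⟨g12, g13⟩, g23⟩ := hm3
    obtain ⟨f1, f2, f3⟩ := hm2
    obtain ⟨y, y', gy, hy, hy', fy, fy'⟩ : ∃ y y', gp G p y y' ≤ c3 ∧ gp G p y o ≤ c3 + Δ ∧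
        gp G p y' o ≤ c3 + Δ ∧ |r| + |c3| + Δ ≤ d G p y ∧ |r| + |c3| + Δ ≤ d G p y' := by
      have k12 := h4 p y1 o y2
      have k13 := h4 p y1 o y3
      have k23 := h4 p y2 o y3
      rw [gp_comm p o] at k12 k13 k23
      by_cases b1 : gp G p y1 o ≤ c3 + Δ
      · by_cases b2 : gp G p y2 o ≤ c3 + Δ
        · exact ⟨y1, y2, g12, b1, b2, f1, f2⟩
        · refine ⟨y1, y3, g13, b1, ?_, f1, f3⟩
          by_contra b3
          push Not at b2 b3
          have := lt_min b2 b3
          linarith
      · refine ⟨y2, y3, g23, ?_, ?_, f2, f3⟩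
        · by_contra b3
          push Not at b1 b3
          have := lt_min b1 b3
          linarith
        · by_contra b3
          push Not at b1 b3
          have := lt_min b1 b3
          linarith
    have hfar : ∀ y, gp G p y o ≤ c3 + Δ → |r| + |c3| + Δ ≤ d G p y → r ≤ d G o y := by
      intro y h1 h2
      have e : d G o y = L + d G p y - gp G p y o := by
        unfold gp
        rw [d_comm p o, hp1, d_comm y o]
        ring
      have := le_abs_self r
      rw [e]
      linarith
    have hgx : ∀ y, gp G p y o ≤ c3 + Δ → ∀ x ∈ l', gp G o y x ≤ c + Δ := by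
      intro y h1 x hx
      have e1 : gp G o x1 p = 2 * L := by
        unfold gp
        rw [hp1, d_comm x1 p, hp2]
        ring
      have e2 : gp G o p y = 2 * L - gp G p y o := by
        unfold gp
        rw [hp1, d_comm p o, hp1, d_comm y o]
        ring
      have k1 := h4 o x1 p y
      have k2 := h4 o x1 y x
      have k3 : gp G o x1 x ≤ c := (List.pairwise_cons.1 hl3).1 x hx
      rw [e1, e2] at k1
      have k4 : 2 * L - |c3| - Δ ≤ min (2 * L) (2 * L - gp G p y o) := by
        apply le_min
        · linarith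
        · linarith
      by_contra hcon
      push Not at hcon
      have : c + Δ < min (gp G o x1 y) (gp G o y x) := by
        apply lt_min _ hcon
        linarith
      linarith
    refine ⟨y :: y' :: l', ?_, ?_, ?_⟩
    · simp only [List.length_cons] at hl1 ⊢
      omega
    · intro x hx
      simp only [List.mem_cons] at hx
      rcases hx with rfl | rfl | hx
      · exact hfar _ hy fy
      · exact hfar _ hy' fy'
      · exact le_trans (le_max_left _ _) (hl2 x (List.mem_cons_of_mem _ hx))
    · rw [List.pairwise_cons, List.pairwise_cons]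
      refine ⟨?_, ?_, ?_⟩
      · intro x hx
        rcases List.mem_cons.1 hx with rfl | hx
        · refine le_trans ?_ (le_max_right _ _)
          have t1 := d_tri hG o p y
          have t2 := d_tri hG o p x
          rw [hp1] at t1 t2
          have : gp G o y x ≤ gp G p y x + 2 * L := by
            unfold gp
            linarith
          linarith
        · exact le_trans (hgx y hy x hx) (le_max_left _ _)
      · intro x hx
        exact le_trans (hgx y' hy' x hx) (le_max_left _ _)
      · refine (List.pairwise_cons.1 hl3).2.imp ?_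
        intro a b hab
        refine le_trans ?_ (le_max_left _ _)
        linarith

/-- The lower bound for the number of infinite cells. -/
lemma survive (n : ℕ) (hn : 1 ≤ n) (hQ : Q G n) :
    ∃ D : ℕ, ∀ T ∈ Sites G D n, n ≤ infiniteCells G T := by
  classical
  obtain ⟨c, hc⟩ := hQ
  refine ⟨(c + Δ).toNat, fun T hT => ?_⟩
  obtain ⟨hT1, hT2⟩ := hT
  by_contra hlt
  push Not at hlt
  set I : Set V := {v | v ∈ T ∧ (cell G v T).Infinite} with hI
  have hIfin : I.Finite := T.finite_toSet.subset fun v hv => hv.1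
  have hlt' : I.ncard < n := hlt
  -- a site with a finite cell
  obtain ⟨v, hvT, hvfin⟩ : ∃ v ∈ T, (cell G v T).Finite := by
    by_contra hcon
    push Not at hcon
    have hsub : (T : Set V) ⊆ I := fun v hv => ⟨hv, hcon v hv⟩
    have := Set.ncard_le_ncard hsub hIfin
    rw [Set.ncard_coe_finset] at this
    omega
  -- the union of the finite cells is bounded
  set F : Set V := ⋃ w ∈ {w | w ∈ T ∧ (cell G w T).Finite}, cell G w T with hF
  have hFfin : F.Finite := by
    apply Set.Finite.biUnion (T.finite_toSet.subset fun w hw => hw.1)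
    exact fun w hw => hw.2
  obtain ⟨r, hr⟩ : ∃ r : ℤ, ∀ u ∈ F, d G v u < r := by
    obtain ⟨b, hb⟩ := (hFfin.image (fun u => d G v u)).bddAbove
    exact ⟨b + 1, fun u hu => by
      have := hb ⟨u, hu, rfl⟩
      linarith⟩
  obtain ⟨l, hl1, hl2, hl3⟩ := hc r v
  -- nearest sites
  have hnear : ∀ x : V, ∃ w ∈ T, ∀ w' ∈ T, G.dist x w ≤ G.dist x w' := fun x =>
    Finset.exists_min_image T (fun w => G.dist x w) ⟨v, hvT⟩
  choose W hW1 hW2 using hnear
  have hWI : ∀ x ∈ l, W x ∈ I := by
    intro x hx
    refine ⟨hW1 x, ?_⟩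
    intro hfin
    have hxF : x ∈ F := by
      rw [hF]
      simp only [Set.mem_iUnion]
      exact ⟨W x, ⟨hW1 x, hfin⟩, hW2 x⟩
    have h1 := hr x hxF
    have h2 := hl2 x hx
    linarith
  have hvI : v ∉ I := fun h => h.2 hvfin
  have hbig : ∀ x ∈ l, c + Δ < gp G v x (W x) := by
    intro x hx
    have h1 : v ≠ W x := fun h => hvI (by rw [h]; exact hWI x hx)
    have h2 := hT2 v hvT (W x) (hW1 x) h1
    have h3 := hW2 x v hvT
    have h5 : d G x (W x) ≤ d G v x := by
      rw [d_comm v x]; unfold d; exact_mod_cast h3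
    have h6 : c + Δ < d G v (W x) := by
      unfold d; omega
    unfold gp
    linarith
  have hnodup : (l.map W).Nodup := by
    rw [List.Nodup, List.pairwise_map]
    apply List.Pairwise.imp_of_mem _ hl3
    intro x y hx hy hxy heq
    have h1 := hbig x hx
    have h2 := hbig y hy
    rw [← heq] at h2
    have h3 := h4 v x (W x) y
    rw [gp_comm v (W x) y] at h3
    have := lt_min h1 h2
    linarith
  have hsub : ((l.map W).toFinset : Set V) ⊆ I := by
    intro w hw
    simp only [List.coe_toFinset, List.mem_map, Set.mem_ofPred_eq] at hw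
    obtain ⟨x, hx, rfl⟩ := hw
    exact hWI x hx
  have := Set.ncard_le_ncard hsub hIfin
  rw [Set.ncard_coe_finset, List.toFinset_card_of_nodup hnodup, List.length_map, hl1] at this
  omega

end trans

/-- **Full answer (positive).**  Every infinite, connected, locally finite, vertex-transitive
hyperbolic graph which does not have linear growth has infinite survival number. -/
theorem result (V : Type*) [Infinite V] (G : SimpleGraph V) (hG : G.Connected)
    (hlf : ∀ v, (G.neighborSet v).Finite) (htr : VertexTransitive G) (hhyp : Hyperbolic G)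
    (hgr : ¬ LinearGrowth G) : survivalNumber G = ⊤ := by
  obtain ⟨δ, hδ⟩ := hhyp
  have h4 := four_point hG hδ
  have hΔ0 : (0 : ℤ) ≤ 6 * δ + 2 := by positivity
  have h3 := q3 hG hlf htr _ hΔ0 h4 hgr
  rw [ENat.eq_top_iff_forall_ge]
  intro m
  have hQ := q_all hG hlf htr _ hΔ0 h4 h3 m
  have hs := survive hG hlf htr _ hΔ0 h4 (m + 1) (by omega) hQ
  have hmem : ((m + 1 : ℕ) : ℕ∞) ∈ {s : ℕ∞ | ∃ n : ℕ, s = n ∧ 1 ≤ n ∧
      ∃ D : ℕ, ∀ T ∈ Sites G D n, n ≤ infiniteCells G T} := ⟨m + 1, rfl, by omega, hs⟩
  have h5 := le_sSup hmem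
  refine le_trans ?_ h5
  exact_mod_cast Nat.le_succ m

end Pool.Agent.Results.MP_5fb5c8_co.HyperbolicSurvival
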